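import Pool.Agent.H88.OT.Targets

/-! # FI: sums of two zeros -/

set_option autoImplicit false

open Complex MeasureTheory Set

namespace Pool.Agent.H74.OT

open Pool.Agent.H88.OT
open Pool.Agent.H23.GLH (PrimChar)
open Pool.Agent.H74.PP (ordMult)

/-- the cloud of the points `α y + τ` -/
noncomputable def cl (α τ : ℝ) (S : Finset ℝ) (w : ℝ → ℝ) : Cloud where
  ι := ℝ
  I := S
  x := fun y => α * y + τ
  w := fun y => max (w y) 0
  nn := fun _ => le_max_right _ _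

lemma cl_m (α τ : ℝ) (S : Finset ℝ) (w : ℝ → ℝ) (h : ∀ y ∈ S, 0 ≤ w y) :
    (cl α τ S w).m = ∑ y ∈ S, w y :=
  Finset.sum_congr rfl fun y hy => max_eq_left (h y hy)

open scoped Classical in
lemma cl_sp {ψ : PrimChar} {C K : ℝ} (hC : 1 ≤ C) (hK : ∀ (T v : ℝ) (S : Finset ℝ), 2 ≤ T →
    (∀ y ∈ S, 0 < y ∧ y ≤ T) →
    ∑ y ∈ S.filter (fun y => v ≤ y ∧ y ≤ v + C), (ordMult ψ y : ℝ) ≤ K * Real.log T)
    {T α τ : ℝ} {S : Finset ℝ} {w : ℝ → ℝ} (hT : 2 ≤ T) (hα : 1 / C ≤ |α|) (hα' : |α| ≤ C)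
    (hτ : |τ| ≤ C * T)
    (hS : ∀ y ∈ S, 0 < y ∧ y ≤ T ∧ 0 ≤ w y ∧ w y ≤ ordMult ψ y) :
    (cl α τ S w).Sp (2 * C * T) (K * Real.log T) := by
  have hC0 : 0 < C := by linarith
  have hαpos : 0 < |α| := lt_of_lt_of_le (by positivity) hα
  have hα0 : α ≠ 0 := abs_pos.1 hαpos
  refine ⟨fun (y : ℝ) (hy : y ∈ S) => ?_, fun v => ?_⟩
  · have h1 := hS y hy
    change |α * y + τ| ≤ 2 * C * T
    calc |α * y + τ| ≤ |α * y| + |τ| := abs_add_le _ _
      _ = |α| * y + |τ| := by rw [abs_mul, abs_of_pos h1.1]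
      _ ≤ C * T + C * T := by
        have : |α| * y ≤ C * T := mul_le_mul hα' h1.2.1 h1.1.le hC0.le
        linarith
      _ = 2 * C * T := by ring
  · -- the interval for `y`
    set v' : ℝ := if 0 < α then (v - τ) / α else (v + 1 - τ) / α with hv'
    have hinv : 1 / |α| ≤ C := by
      rw [div_le_iff₀ hαpos]
      rw [div_le_iff₀ hC0] at hα
      linarith
    have hsub : ∀ y, v ≤ α * y + τ → α * y + τ ≤ v + 1 → v' ≤ y ∧ y ≤ v' + C := by
      intro y h1 h2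
      by_cases hp : 0 < α
      · rw [hv', if_pos hp]
        rw [abs_of_pos hp] at hinv
        constructor
        · rw [div_le_iff₀ hp]
          linarith
        · have h3 : y ≤ (v + 1 - τ) / α := by
            rw [le_div_iff₀ hp]
            linarith
          have h4 : (v + 1 - τ) / α = (v - τ) / α + 1 / α := by
            rw [← add_div]
            congr 1
            ring
          linarith
      · have hn : α < 0 := lt_of_le_of_ne (not_lt.1 hp) hα0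
        rw [hv', if_neg hp]
        rw [abs_of_neg hn] at hinv
        constructor
        · rw [div_le_iff_of_neg hn]
          linarith
        · have h3 : y ≤ (v - τ) / α := by
            rw [le_div_iff_of_neg hn]
            linarith
          have h4 : (v - τ) / α = (v + 1 - τ) / α + 1 / -α := by
            rw [div_neg, ← sub_eq_add_neg, ← sub_div]
            congr 1
            ring
          linarith
    have h5 := hK T v' S hT fun y hy => ⟨(hS y hy).1, (hS y hy).2.1⟩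
    refine le_trans ?_ h5
    have h6 : ∑ i ∈ (cl α τ S w).I.filter (fun i => v ≤ (cl α τ S w).x i ∧
        (cl α τ S w).x i ≤ v + 1), (cl α τ S w).w i ≤
        ∑ y ∈ S.filter (fun y => v' ≤ y ∧ y ≤ v' + C), max (w y) 0 := by
      refine Finset.sum_le_sum_of_subset_of_nonneg (f := fun y : ℝ => max (w y) 0) ?_
        fun _ _ _ => le_max_right _ _
      intro (y : ℝ) hy
      have hy' : y ∈ S ∧ (v ≤ α * y + τ ∧ α * y + τ ≤ v + 1) := Finset.mem_filter.1 hy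
      rw [Finset.mem_filter]
      exact ⟨hy'.1, hsub y hy'.2.1 hy'.2.2⟩
    refine h6.trans (Finset.sum_le_sum fun y hy => ?_)
    have h7 := hS y (Finset.mem_filter.1 hy).1
    rw [max_eq_left h7.2.2.1]
    exact h7.2.2.2

theorem pf_FI (hCO : T_CO) (hZC : T_ZC) : T_FI := by
  classical
  intro χ ψ₁ ψ₂ C ε hC hε
  obtain ⟨c, T₁, hc, hco⟩ := hCO χ ε hε
  obtain ⟨K₁, hK₁, hz1⟩ := hZC ψ₁ C hC
  obtain ⟨K₂, hK₂, hz2⟩ := hZC ψ₂ C hC
  have hC0 : 0 < C := by linarith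
  refine ⟨4 * C ^ 2 * (K₁ * K₂) / c, max (max T₁ 2) 2, ?_⟩
  intro T α₁ α₂ τ S₁ S₂ w₁ w₂ hT hα₁ hα₁' hα₂ hα₂' hτ hS₁ hS₂ hM
  have hT1 : T₁ ≤ T := ((le_max_left _ _).trans (le_max_left _ _)).trans hT
  have hT2 : 2 ≤ T := (le_max_right _ _).trans hT
  have hT0 : 0 < T := by linarith
  have hlog : 0 < Real.log T := Real.log_pos (by linarith)
  have hsp1 := cl_sp hC hz1 hT2 hα₁ hα₁' hτ hS₁
  have hsp2 := cl_sp hC hz2 hT2 hα₂ hα₂' (by rw [abs_zero]; positivity : |(0 : ℝ)| ≤ C * T) hS₂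
  have hm1 := cl_m α₁ τ S₁ w₁ fun y hy => (hS₁ y hy).2.2.1
  have hm2 := cl_m α₂ 0 S₂ w₂ fun y hy => (hS₂ y hy).2.2.1
  have hTT : T ≤ 2 * C * T := by nlinarith
  have hlog' : Real.log T ≤ Real.log (2 * C * T) := Real.log_le_log hT0 hTT
  have hcond : (2 * C * T) ^ 2 * ((K₁ * Real.log T) * (K₂ * Real.log T)) ≤
      c * Real.log (2 * C * T) ^ 2 * ((cl α₁ τ S₁ w₁).m * (cl α₂ 0 S₂ w₂).m) := by
    rw [hm1, hm2]
    rw [div_mul_eq_mul_div, div_le_iff₀ hc] at hM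
    have h1 : Real.log T ^ 2 ≤ Real.log (2 * C * T) ^ 2 := pow_le_pow_left₀ hlog.le hlog' 2
    have h2 : 0 ≤ (∑ y ∈ S₁, w₁ y) * ∑ y ∈ S₂, w₂ y :=
      mul_nonneg (Finset.sum_nonneg fun y hy => (hS₁ y hy).2.2.1)
        (Finset.sum_nonneg fun y hy => (hS₂ y hy).2.2.1)
    calc (2 * C * T) ^ 2 * ((K₁ * Real.log T) * (K₂ * Real.log T))
        = (4 * C ^ 2 * (K₁ * K₂) * T ^ 2) * Real.log T ^ 2 := by ring
      _ ≤ (((∑ y ∈ S₁, w₁ y) * ∑ y ∈ S₂, w₂ y) * c) * Real.log T ^ 2 :=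
          mul_le_mul_of_nonneg_right hM (sq_nonneg _)
      _ ≤ (((∑ y ∈ S₁, w₁ y) * ∑ y ∈ S₂, w₂ y) * c) * Real.log (2 * C * T) ^ 2 :=
          mul_le_mul_of_nonneg_left h1 (mul_nonneg h2 hc.le)
      _ = _ := by ring
  have hfin := hco (2 * C * T) _ _ _ _ (hT1.trans hTT) hsp1 hsp2 hcond
  rw [hm1, hm2] at hfin
  refine hfin.trans (le_of_eq ?_)
  unfold PS
  refine Finset.sum_congr rfl fun (y : ℝ) (hy : y ∈ S₁) =>
    Finset.sum_congr rfl fun (z : ℝ) (hz : z ∈ S₂) => ?_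
  have e1 : ((cl α₁ τ S₁ w₁).x y + (cl α₂ 0 S₂ w₂).x z) = α₁ * y + α₂ * z + τ := by
    change (α₁ * y + τ) + (α₂ * z + 0) = _
    ring
  have e2 : (cl α₁ τ S₁ w₁).w y * (cl α₂ 0 S₂ w₂).w z = w₁ y * w₂ z := by
    change max (w₁ y) 0 * max (w₂ z) 0 = _
    rw [max_eq_left (hS₁ y hy).2.2.1, max_eq_left (hS₂ z hz).2.2.1]
  rw [e1, e2]
  split_ifs <;> rfl

end Pool.Agent.H74.OT
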