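import Pool.Agent.H88.OT.Targets
import Pool.Agent.H29.PZ.DD

/-! # ID: decomposition into frequencies -/

set_option autoImplicit false

open Complex MeasureTheory Set

namespace Pool.Agent.H74.OT

open Pool.Agent.H88.OT
open Pool.Agent.H23.GLH (PrimChar)
open Pool.Agent.H28.MZ (ei co Bf V W SS DS Sy PP Mol dv)
open Pool.Agent.H29.PZ (co_zero co_mul co_mul_conj co_eq_zero)

lemma ei_add (x y : ℝ) : ei (x + y) = ei x * ei y := by
  unfold ei
  rw [← Complex.exp_add]
  congr 1
  push_cast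
  ring

lemma ei_conj (x : ℝ) : (starRingEnd ℂ) (ei x) = ei (-x) := by
  unfold ei
  rw [← Complex.exp_conj]
  congr 1
  simp

lemma norm_ei (x : ℝ) : ‖ei x‖ = 1 := by
  unfold ei
  exact Complex.norm_exp_ofReal_mul_I x

/-- uniqueness of the reduced fraction -/
lemma uniq {x y a b : ℕ} (hx : 0 < x) (hy : 0 < y) (ha : Nat.Coprime a b)
    (h : x * a = y * b) : a = y / Nat.gcd y x ∧ b = x / Nat.gcd y x := by
  set g := Nat.gcd y x with hg
  have hg0 : 0 < g := Nat.gcd_pos_of_pos_left _ hy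
  obtain ⟨y', hy'⟩ : g ∣ y := Nat.gcd_dvd_left y x
  obtain ⟨x', hx'⟩ : g ∣ x := Nat.gcd_dvd_right y x
  have hyg : y / g = y' := by
    rw [hy']
    exact Nat.mul_div_cancel_left _ hg0
  have hxg : x / g = x' := by
    rw [hx']
    exact Nat.mul_div_cancel_left _ hg0
  have hcop : Nat.Coprime y' x' := by
    rw [← hyg, ← hxg]
    exact Nat.coprime_div_gcd_div_gcd hg0
  rw [hyg, hxg]
  have h1 : x' * a = y' * b := by
    have h2 : g * (x' * a) = g * (y' * b) := by
      calc g * (x' * a) = (g * x') * a := by ring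
        _ = x * a := by rw [← hx']
        _ = y * b := h
        _ = (g * y') * b := by rw [← hy']
        _ = g * (y' * b) := by ring
    exact Nat.eq_of_mul_eq_mul_left hg0 h2
  have h3 : y' ∣ a := by
    have : y' ∣ x' * a := ⟨b, h1⟩
    exact hcop.dvd_of_dvd_mul_left this
  have h4 : a ∣ y' := by
    have : a ∣ y' * b := ⟨x', by rw [← h1]; ring⟩
    exact ha.dvd_of_dvd_mul_right this
  have h5 : a = y' := Nat.dvd_antisymm h4 h3
  refine ⟨h5, ?_⟩
  have hy'0 : 0 < y' := by
    rcases Nat.eq_zero_or_pos y' with h0 | h0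
    · rw [h0, mul_zero] at hy'
      omega
    · exact h0
  subst h5
  have h6 : a * b = a * x' := by rw [← h1]; ring
  exact Nat.eq_of_mul_eq_mul_left hy'0 h6

lemma cross_mul {x y : ℕ} : x * (y / Nat.gcd y x) = y * (x / Nat.gcd y x) := by
  rw [← Nat.mul_div_assoc x (Nat.gcd_dvd_left y x), ← Nat.mul_div_assoc y (Nat.gcd_dvd_right y x),
    Nat.mul_comm]

lemma co_ne {π : PrimChar} {n : ℕ} (h : co π n ≠ 0) : 0 < n ∧ Nat.Coprime n π.q := by
  refine ⟨Nat.pos_of_ne_zero fun h0 => h (by rw [h0]; exact co_zero π), ?_⟩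
  by_contra hc
  exact h (co_eq_zero π hc)

open scoped Classical in
/-- the pointwise decomposition -/
lemma point {q Z m n h k : ℕ} {t : ℝ} (hm : 0 < m) (hn : 0 < n) (hh : 0 < h) (hk : 0 < k)
    (cm : Nat.Coprime m q) (cn : Nat.Coprime n q) (ch : Nat.Coprime h q) (ck : Nat.Coprime k q)
    (f : ℂ) :
    f * ei (t * (Real.log n + Real.log k - Real.log m - Real.log h)) =
      (∑ p ∈ FP q Z, (if m * (h * p.1) = n * (k * p.2) then f else 0) *
        ei (t * (Real.log p.1 - Real.log p.2))) +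
      (if Z < rd m n h k then
        f * ei (t * (Real.log n + Real.log k - Real.log m - Real.log h)) else 0) := by
  set x := m * h with hx
  set y := n * k with hy
  have hx0 : 0 < x := Nat.mul_pos hm hh
  have hy0 : 0 < y := Nat.mul_pos hn hk
  set a := y / Nat.gcd y x with ha
  set b := x / Nat.gcd y x with hb
  have hg0 : 0 < Nat.gcd y x := Nat.gcd_pos_of_pos_left _ hy0
  have hab : Nat.Coprime a b := Nat.coprime_div_gcd_div_gcd hg0
  have ha0 : 0 < a := Nat.div_pos (Nat.le_of_dvd hy0 (Nat.gcd_dvd_left y x)) hg0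
  have hb0 : 0 < b := Nat.div_pos (Nat.le_of_dvd hx0 (Nat.gcd_dvd_right y x)) hg0
  have hrd : rd m n h k = a * b := rfl
  have hcross : x * a = y * b := cross_mul
  have hiff : ∀ p : ℕ × ℕ, p ∈ FP q Z → (m * (h * p.1) = n * (k * p.2) → p = (a, b)) := by
    intro p hp he
    unfold FP at hp
    rw [Finset.mem_filter] at hp
    obtain ⟨h1, h2⟩ := uniq hx0 hy0 hp.2.1 (by
      calc x * p.1 = m * (h * p.1) := by rw [hx]; ring
        _ = n * (k * p.2) := he
        _ = y * p.2 := by rw [hy]; ring)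
    exact Prod.ext h1 h2
  have hcq : Nat.Coprime (a * b) q := by
    have h1 : Nat.Coprime a q := by
      have : Nat.Coprime y q := Nat.Coprime.mul_left cn ck
      exact this.coprime_dvd_left (Nat.div_dvd_of_dvd (Nat.gcd_dvd_left y x))
    have h2 : Nat.Coprime b q := by
      have : Nat.Coprime x q := Nat.Coprime.mul_left cm ch
      exact this.coprime_dvd_left (Nat.div_dvd_of_dvd (Nat.gcd_dvd_right y x))
    exact Nat.Coprime.mul_left h1 h2
  by_cases hZ : Z < rd m n h k
  · rw [if_pos hZ]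
    have h1 : ∑ p ∈ FP q Z, (if m * (h * p.1) = n * (k * p.2) then f else 0) *
        ei (t * (Real.log p.1 - Real.log p.2)) = 0 := by
      refine Finset.sum_eq_zero fun p hp => ?_
      rw [if_neg, zero_mul]
      intro he
      have h2 := hiff p hp he
      unfold FP at hp
      rw [Finset.mem_filter, h2] at hp
      rw [hrd] at hZ
      exact absurd hp.2.2.1 (not_le.2 hZ)
    rw [h1, zero_add]
  · rw [if_neg hZ, add_zero]
    have hmem : (a, b) ∈ FP q Z := by
      unfold FP
      rw [Finset.mem_filter, Finset.mem_product, Finset.mem_Icc, Finset.mem_Icc]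
      rw [hrd, not_lt] at hZ
      have h1 : a ≤ a * b := Nat.le_mul_of_pos_right a hb0
      have h2 : b ≤ a * b := Nat.le_mul_of_pos_left b ha0
      exact ⟨⟨⟨ha0, h1.trans hZ⟩, ⟨hb0, h2.trans hZ⟩⟩, hab, hZ, hcq⟩
    rw [Finset.sum_eq_single_of_mem (a, b) hmem]
    · have he : m * (h * a) = n * (k * b) := by
        calc m * (h * a) = x * a := by rw [hx]; ring
          _ = y * b := hcross
          _ = n * (k * b) := by rw [hy]; ring
      rw [if_pos he]
      congr 2
      have hR : (x : ℝ) * a = (y : ℝ) * b := by exact_mod_cast hcross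
      have hxR : (0 : ℝ) < x := by exact_mod_cast hx0
      have hyR : (0 : ℝ) < y := by exact_mod_cast hy0
      have haR : (0 : ℝ) < a := by exact_mod_cast ha0
      have hbR : (0 : ℝ) < b := by exact_mod_cast hb0
      have hl := congrArg Real.log hR
      rw [Real.log_mul hxR.ne' haR.ne', Real.log_mul hyR.ne' hbR.ne'] at hl
      have lx : Real.log x = Real.log m + Real.log h := by
        rw [hx]
        push_cast
        exact Real.log_mul (by exact_mod_cast hm.ne') (by exact_mod_cast hh.ne')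
      have ly : Real.log y = Real.log n + Real.log k := by
        rw [hy]
        push_cast
        exact Real.log_mul (by exact_mod_cast hn.ne') (by exact_mod_cast hk.ne')
      rw [lx, ly] at hl
      linear_combination (-t) * hl
    · intro p hp hne
      rw [if_neg fun he => hne (hiff p hp he), zero_mul]

/-- the square of the polynomial -/
lemma sq_poly (π : PrimChar) (Y : ℕ) (t : ℝ) :
    ((‖Bf π (fb π.q Y) Y (1 / 2 + t * I)‖ ^ 2 : ℝ) : ℂ) =
      ∑ h ∈ Finset.Icc 1 Y, ∑ k ∈ Finset.Icc 1 Y,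
        ((fb π.q Y h * fb π.q Y k * ((h : ℝ) * k) ^ (-(1 / 2 : ℝ)) : ℝ) : ℂ) *
          (co π h * (starRingEnd ℂ) (co π k)) * ei (t * (Real.log k - Real.log h)) := by
  have hpow : ∀ x : ℝ, 0 < x → (x : ℂ) ^ (-(1 / 2 + t * I : ℂ)) =
      ((x ^ (-(1 / 2 : ℝ)) : ℝ) : ℂ) * ei (-(t * Real.log x)) := by
    intro x hx
    have hxC : (x : ℂ) ≠ 0 := by exact_mod_cast hx.ne'
    rw [Complex.cpow_def_of_ne_zero hxC, ← Complex.ofReal_log hx.le, Real.rpow_def_of_pos hx,
      Complex.ofReal_exp]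
    unfold ei
    rw [← Complex.exp_add]
    congr 1
    push_cast
    ring
  rw [← Complex.normSq_eq_norm_sq, Complex.normSq_eq_conj_mul_self, mul_comm]
  unfold Bf
  rw [map_sum, Finset.sum_mul_sum]
  refine Finset.sum_congr rfl fun h hh => Finset.sum_congr rfl fun k hk => ?_
  have hh0 : (0 : ℝ) < h := by
    have := (Finset.mem_Icc.1 hh).1
    exact_mod_cast this
  have hk0 : (0 : ℝ) < k := by
    have := (Finset.mem_Icc.1 hk).1
    exact_mod_cast this
  have e1 := hpow h hh0
  have e2 := hpow k hk0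
  rw [Complex.ofReal_natCast] at e1 e2
  rw [e1, e2]
  simp only [map_mul, Complex.conj_ofReal, ei_conj]
  rw [Real.mul_rpow hh0.le hk0.le]
  have e3 : ei (t * (Real.log k - Real.log h)) =
      ei (-(t * Real.log h)) * ei (- -(t * Real.log k)) := by
    rw [← ei_add]
    congr 1
    ring
  rw [e3]
  push_cast
  ring

open scoped Classical in
/-- the inner identity, abstract form -/
lemma inner_sum {q Z h k : ℕ} {t : ℝ} (hh : 0 < h) (hk : 0 < k) (ch : Nat.Coprime h q)
    (ck : Nat.Coprime k q) (f : ℕ × ℕ → ℂ) (hs : Summable fun p => ‖f p‖)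
    (h0 : ∀ p, f p ≠ 0 → (0 < p.1 ∧ Nat.Coprime p.1 q) ∧ 0 < p.2 ∧ Nat.Coprime p.2 q) :
    ei (t * (Real.log k - Real.log h)) * (∑' p : ℕ × ℕ,
        f p * ei (t * (Real.log p.2 - Real.log p.1))) =
      (∑ c ∈ FP q Z, (∑' p : ℕ × ℕ, if p.1 * (h * c.1) = p.2 * (k * c.2) then f p else 0) *
        ei (t * (Real.log c.1 - Real.log c.2))) +
      ∑' p : ℕ × ℕ, if Z < rd p.1 p.2 h k then
        f p * ei (t * (Real.log p.2 + Real.log k - Real.log p.1 - Real.log h)) else 0 := by
  rw [← tsum_mul_left]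
  have e1 : ∀ p : ℕ × ℕ, ei (t * (Real.log k - Real.log h)) *
      (f p * ei (t * (Real.log p.2 - Real.log p.1))) =
      (∑ c ∈ FP q Z, (if p.1 * (h * c.1) = p.2 * (k * c.2) then f p else 0) *
        ei (t * (Real.log c.1 - Real.log c.2))) +
      (if Z < rd p.1 p.2 h k then
        f p * ei (t * (Real.log p.2 + Real.log k - Real.log p.1 - Real.log h)) else 0) := by
    intro p
    by_cases hp : f p = 0
    · simp only [hp, zero_mul, mul_zero, ite_self, Finset.sum_const_zero, add_zero]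
    · obtain ⟨⟨hm0, hmq⟩, hn0, hnq⟩ := h0 p hp
      rw [← point hm0 hn0 hh hk hmq hnq ch ck (f p)]
      have e2 : ei (t * (Real.log p.2 + Real.log k - Real.log p.1 - Real.log h)) =
          ei (t * (Real.log k - Real.log h)) * ei (t * (Real.log p.2 - Real.log p.1)) := by
        rw [← ei_add]
        congr 1
        ring
      rw [e2]
      ring
  rw [tsum_congr e1]
  have c1 : ∀ c ∈ FP q Z, Summable fun p : ℕ × ℕ =>
      (if p.1 * (h * c.1) = p.2 * (k * c.2) then f p else 0) *
        ei (t * (Real.log c.1 - Real.log c.2)) := fun c _ => by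
    refine Summable.mul_right _ ?_
    refine Summable.of_norm_bounded hs fun p => ?_
    split_ifs
    · exact le_rfl
    · rw [norm_zero]
      exact norm_nonneg _
  have c3 : Summable fun p : ℕ × ℕ => if Z < rd p.1 p.2 h k then
        f p * ei (t * (Real.log p.2 + Real.log k - Real.log p.1 - Real.log h)) else 0 := by
    refine Summable.of_norm_bounded hs fun p => ?_
    split_ifs
    · rw [norm_mul, norm_ei, mul_one]
    · rw [norm_zero]
      exact norm_nonneg _
  rw [(summable_sum c1).tsum_add c3, Summable.tsum_finsetSum c1]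
  congr 1
  refine Finset.sum_congr rfl fun c _ => ?_
  rw [tsum_mul_right]

/-- the coefficients of the double sum -/
noncomputable def cf (π : PrimChar) (ξ : ℝ) (p : ℕ × ℕ) : ℂ :=
  co π p.1 * (starRingEnd ℂ) (co π p.2) *
    ((((p.1 : ℝ) * p.2) ^ (-(1 / 2) : ℝ) * V ((p.1 : ℝ) * p.2 * ξ) : ℝ) : ℂ)

lemma cf_ne {π : PrimChar} {ξ : ℝ} {p : ℕ × ℕ} (h : cf π ξ p ≠ 0) :
    co π p.1 ≠ 0 ∧ co π p.2 ≠ 0 := by
  constructor
  · intro h0
    apply h
    unfold cf
    rw [h0, zero_mul, zero_mul]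
  · intro h0
    apply h
    unfold cf
    rw [h0, map_zero, mul_zero, zero_mul]

lemma cf_summable (hSU : T_SU) (π : PrimChar) {ξ : ℝ} (hξ : 0 < ξ) :
    Summable fun p => ‖cf π ξ p‖ := by
  refine (hSU π (1 / 2) ξ (by norm_num) hξ).congr fun p => ?_
  unfold cf
  rw [norm_mul, norm_mul, RCLike.norm_conj, Complex.norm_real, Real.norm_eq_abs]

open scoped Classical in
lemma DS_eq (π : PrimChar) (h k : ℕ) (ξ : ℝ) : DS π h k (1 / 2) ξ =
    ∑' p : ℕ × ℕ, if p.1 * h = p.2 * k then cf π ξ p else 0 := by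
  unfold DS cf
  refine tsum_congr fun p => ?_
  split_ifs <;> rfl

open scoped Classical in
/-- the inner identity -/
lemma inner (hSU : T_SU) (π : PrimChar) (Z : ℕ) {ξ κ t : ℝ} (hξ : 0 < ξ) (hκ : 0 < κ) {h k : ℕ}
    (hh : co π h ≠ 0) (hk : co π k ≠ 0) :
    ei (t * (Real.log k - Real.log h)) * (SS π (1 / 2) ξ t + SS π (1 / 2) κ t) =
      (∑ p ∈ FP π.q Z, (DS π (h * p.1) (k * p.2) (1 / 2) ξ +
        DS π (h * p.1) (k * p.2) (1 / 2) κ) * ei (t * (Real.log p.1 - Real.log p.2))) +
      ∑' p : ℕ × ℕ, if Z < rd p.1 p.2 h k then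
        (cf π ξ p + cf π κ p) *
          ei (t * (Real.log p.2 + Real.log k - Real.log p.1 - Real.log h)) else 0 := by
  obtain ⟨hh0, hhq⟩ := co_ne hh
  obtain ⟨hk0, hkq⟩ := co_ne hk
  have hs1 := cf_summable hSU π hξ
  have hs2 := cf_summable hSU π hκ
  have hs : Summable fun p => ‖cf π ξ p + cf π κ p‖ :=
    Summable.of_nonneg_of_le (fun _ => norm_nonneg _) (fun p => norm_add_le _ _) (hs1.add hs2)
  have hSS : SS π (1 / 2) ξ t + SS π (1 / 2) κ t =
      ∑' p : ℕ × ℕ, (cf π ξ p + cf π κ p) * ei (t * (Real.log p.2 - Real.log p.1)) := by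
    have a1 : Summable fun p : ℕ × ℕ => cf π ξ p * ei (t * (Real.log p.2 - Real.log p.1)) :=
      Summable.of_norm_bounded hs1 fun p => by rw [norm_mul, norm_ei, mul_one]
    have a2 : Summable fun p : ℕ × ℕ => cf π κ p * ei (t * (Real.log p.2 - Real.log p.1)) :=
      Summable.of_norm_bounded hs2 fun p => by rw [norm_mul, norm_ei, mul_one]
    simp only [add_mul]
    rw [a1.tsum_add a2]
    rfl
  have hDS : ∀ c : ℕ × ℕ, DS π (h * c.1) (k * c.2) (1 / 2) ξ +
      DS π (h * c.1) (k * c.2) (1 / 2) κ =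
        ∑' p : ℕ × ℕ, if p.1 * (h * c.1) = p.2 * (k * c.2) then cf π ξ p + cf π κ p else 0 := by
    intro c
    have b : ∀ ζ : ℝ, (Summable fun p => ‖cf π ζ p‖) →
        Summable fun p : ℕ × ℕ => if p.1 * (h * c.1) = p.2 * (k * c.2) then cf π ζ p else 0 := by
      intro ζ hζ
      refine Summable.of_norm_bounded hζ fun p => ?_
      split_ifs
      · exact le_rfl
      · rw [norm_zero]
        exact norm_nonneg _
    rw [DS_eq, DS_eq, ← (b ξ hs1).tsum_add (b κ hs2)]
    refine tsum_congr fun p => ?_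
    split_ifs
    · rfl
    · exact add_zero 0
  rw [hSS, inner_sum hh0 hk0 hhq hkq _ hs fun p hp => ?_]
  · congr 1
    refine Finset.sum_congr rfl fun c _ => ?_
    rw [hDS]
  · have h1 : cf π ξ p ≠ 0 ∨ cf π κ p ≠ 0 := by
      by_contra hc
      push Not at hc
      exact hp (by rw [hc.1, hc.2, add_zero])
    have h2 : co π p.1 ≠ 0 ∧ co π p.2 ≠ 0 := by
      rcases h1 with h1 | h1
      · exact cf_ne h1
      · exact cf_ne h1
    exact ⟨co_ne h2.1, co_ne h2.2⟩

open scoped Classical in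
theorem pf_ID (hSU : T_SU) : T_ID := by
  intro π Y Z u t hY hu ht
  have hq0 : (0 : ℝ) < π.q := by
    have := π.q_ne
    exact_mod_cast Nat.pos_of_ne_zero (NeZero.ne π.q)
  have hκ0 : 0 < 4 * Real.pi ^ 2 * u / (π.q * t) ^ 2 := by
    have := Real.pi_pos
    positivity
  have hξ0 : 0 < 1 / u := by positivity
  rw [sq_poly π Y t, Finset.sum_mul]
  unfold Rr Hh
  generalize 4 * Real.pi ^ 2 * u / (π.q * t) ^ 2 = κ at hκ0 ⊢
  generalize 1 / u = ξ at hξ0 ⊢
  simp only [Finset.sum_mul]
  rw [Finset.sum_comm (s := FP π.q Z) (t := Finset.Icc 1 Y), ← Finset.sum_add_distrib]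
  refine Finset.sum_congr rfl fun h hh => ?_
  rw [Finset.sum_comm (s := FP π.q Z) (t := Finset.Icc 1 Y), ← Finset.sum_add_distrib]
  refine Finset.sum_congr rfl fun k hk => ?_
  by_cases hc : co π h = 0 ∨ co π k = 0
  · have hc0 : co π h * (starRingEnd ℂ) (co π k) = 0 := by
      rcases hc with hc | hc
      · rw [hc, zero_mul]
      · rw [hc, map_zero, mul_zero]
    simp only [hc0, mul_zero, zero_mul, Finset.sum_const_zero, add_zero]
  · push Not at hc
    have h1 := inner hSU π Z (t := t) hξ0 hκ0 hc.1 hc.2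
    have h2 : ∀ p : ℕ × ℕ, (if Z < rd p.1 p.2 h k then
          (cf π ξ p + cf π κ p) *
            ei (t * (Real.log p.2 + Real.log k - Real.log p.1 - Real.log h)) else 0) =
        (if Z < rd p.1 p.2 h k then
          co π p.1 * (starRingEnd ℂ) (co π p.2) *
            (((((p.1 : ℝ) * p.2) ^ (-(1 / 2 : ℝ)) * (V ((p.1 : ℝ) * p.2 * ξ) +
              V ((p.1 : ℝ) * p.2 * κ))) : ℝ) : ℂ) *
              ei (t * (Real.log p.2 + Real.log k - Real.log p.1 - Real.log h)) else 0) := by
      intro p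
      split_ifs
      · unfold cf
        push_cast
        ring
      · rfl
    rw [tsum_congr h2] at h1
    rw [mul_assoc, h1, mul_add]
    congr 1
    rw [Finset.mul_sum]
    refine Finset.sum_congr rfl fun p _ => ?_
    ring

end Pool.Agent.H74.OT
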