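import Pool.Agent.H88.OT.Targets
import Pool.Agent.H54.PP.ORD
import Pool.Agent.H29.PP.NU
import Pool.Agent.H18.PZ.CA
import Pool.Agent.H18.PZ.RC
import Pool.Agent.H29.PZ.OR

/-! # ZC: the ordinates of zeros are not concentrated -/

set_option autoImplicit false

open Complex MeasureTheory Set Filter Topology

namespace Pool.Agent.H74.OT

open Pool.Agent.H88.OT
open Pool.Agent.H23.GLH (PrimChar)
open Pool.Agent.H74.PP (ordMult ZF mu mo mem_ZF T_NU an_L order_ne_top one_le_order)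

/-- no zeros near the point one -/
lemma ev_ne (π : PrimChar) : ∀ᶠ s in 𝓝[≠] (1 : ℂ), π.L s ≠ 0 := by
  have := π.q_ne
  by_cases hχ : π.χ = 1
  · have h1 := DirichletCharacter.LFunctionTrivChar_residue_one (N := π.q)
    have hP : (∏ p ∈ π.q.primeFactors, (1 - (p : ℂ)⁻¹)) ≠ 0 := by
      rw [Finset.prod_ne_zero_iff]
      intro p hp
      have hp1 := (Nat.prime_of_mem_primeFactors hp).one_lt
      intro h
      have h2 : (p : ℂ)⁻¹ = 1 := by linear_combination -h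
      rw [inv_eq_one] at h2
      have h3 : p = 1 := by exact_mod_cast h2
      omega
    filter_upwards [h1.eventually_ne hP] with s hs h0
    apply hs
    have h4 : DirichletCharacter.LFunctionTrivChar π.q s = 0 := by
      have h5 : π.L s = DirichletCharacter.LFunction π.χ s := rfl
      rw [h5, hχ] at h0
      exact h0
    rw [h4, mul_zero]
  · have h1 : π.L 1 ≠ 0 := DirichletCharacter.LFunction_apply_one_ne_zero hχ
    have h2 : ContinuousAt π.L 1 :=
      (DirichletCharacter.differentiable_LFunction hχ).continuous.continuousAt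
    exact (h2.eventually_ne h1).filter_mono nhdsWithin_le_nhds

lemma small_fin (π : PrimChar) :
    {ρ : ℂ | 0 < ρ.re ∧ ρ.re < 1 ∧ 0 < ρ.im ∧ ρ.im ≤ 1 ∧ π.L ρ = 0}.Finite := by
  set K : Set ℂ := Icc (0:ℝ) 1 ×ℂ Icc (0 : ℝ) 1
  have hK : IsCompact K := isCompact_Icc.reProdIm isCompact_Icc
  have hsub : {ρ : ℂ | 0 < ρ.re ∧ ρ.re < 1 ∧ 0 < ρ.im ∧ ρ.im ≤ 1 ∧ π.L ρ = 0} ⊆
      K ∩ π.L ⁻¹' {0} := by
    rintro ρ ⟨h1, h2, h3, h4, h5⟩
    refine ⟨?_, h5⟩
    rw [mem_reProdIm]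
    exact ⟨⟨h1.le, h2.le⟩, ⟨h3.le, h4⟩⟩
  refine Set.Finite.subset ?_ hsub
  by_contra hinf
  obtain ⟨z, hzK, hz⟩ := Set.Infinite.exists_accPt_of_subset_isCompact hinf hK inter_subset_left
  have hfr : ∃ᶠ w in nhdsWithin z {z}ᶜ, π.L w = 0 := by
    rw [accPt_iff_frequently_nhdsNE] at hz
    exact hz.mono fun w hw => hw.2
  by_cases hz1 : z = 1
  · subst hz1
    exact hfr (ev_ne π)
  · have hev := (an_L π hz1).frequently_zero_iff_eventually_zero.1 hfr
    exact order_ne_top π hz1 (analyticOrderAt_eq_top.2 hev)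

lemma low (π : PrimChar) : ∃ m : ℝ, 0 < m ∧ m ≤ 1 ∧ ∀ ρ : ℂ, 0 < ρ.re → ρ.re < 1 → 0 < ρ.im →
    π.L ρ = 0 → m < ρ.im := by
  classical
  have hf := small_fin π
  set F := hf.toFinset
  by_cases hF : F.Nonempty
  · obtain ⟨ρ₀, hρ₀, hmin⟩ := F.exists_min_image Complex.im hF
    rw [Set.Finite.mem_toFinset] at hρ₀
    obtain ⟨_, _, h3, h4, _⟩ := hρ₀
    refine ⟨ρ₀.im / 2, by positivity, by linarith, fun ρ g1 g2 g3 g5 => ?_⟩
    by_cases h : ρ.im ≤ 1
    · have := hmin ρ (by rw [Set.Finite.mem_toFinset]; exact ⟨g1, g2, g3, h, g5⟩)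
      linarith
    · linarith [not_le.1 h]
  · refine ⟨1, one_pos, le_rfl, fun ρ g1 g2 g3 g5 => ?_⟩
    by_contra h
    exact hF ⟨ρ, by rw [Set.Finite.mem_toFinset]; exact ⟨g1, g2, g3, not_lt.1 h, g5⟩⟩

lemma ordMult_eq_mo (π : PrimChar) (y : ℝ) : ordMult π y = mo π y := rfl

lemma sum_le (π : PrimChar) {U₁ U₂ : ℝ} (h0 : 0 < U₁) (S : Finset ℝ)
    (h : ∀ y ∈ S, U₁ < y ∧ y < U₂) :
    ∑ y ∈ S, (ordMult π y : ℝ) ≤ ∑ ρ ∈ ZF π U₁ U₂, mu π ρ := by
  classical
  have h1 : ∀ y ∈ S, (ordMult π y : ℝ) = ∑ ρ ∈ ZF π U₁ U₂, if ρ.im = y then mu π ρ else 0 := by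
    intro y hy
    rw [ordMult_eq_mo, Pool.Agent.H54.PP.mo_eq h0 (h y hy).1 (h y hy).2, Finset.sum_filter]
    push_cast
    refine Finset.sum_congr rfl fun ρ _ => ?_
    split_ifs <;> rfl
  rw [Finset.sum_congr rfl h1, Finset.sum_comm]
  refine Finset.sum_le_sum fun ρ _ => ?_
  rw [Finset.sum_ite_eq]
  split_ifs
  · exact le_rfl
  · exact Nat.cast_nonneg _

/-- a bounded part -/
lemma bounded (π : PrimChar) (U : ℝ) : ∃ B : ℝ, 0 ≤ B ∧ ∀ S : Finset ℝ,
    (∀ y ∈ S, 0 < y ∧ y < U) → ∑ y ∈ S, (ordMult π y : ℝ) ≤ B := by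
  classical
  obtain ⟨m, hm, _, hlow⟩ := low π
  refine ⟨∑ ρ ∈ ZF π (m / 2) U, mu π ρ, Finset.sum_nonneg fun _ _ => Nat.cast_nonneg _,
    fun S hS => ?_⟩
  have h1 : ∀ y ∈ S, ¬ (m / 2 < y) → (ordMult π y : ℝ) = 0 := by
    intro y hy hmy
    have h2 : ordMult π y = 0 := by
      unfold ordMult
      have h3 : {ρ : ℂ | 0 < ρ.re ∧ ρ.re < 1 ∧ ρ.im = y ∧ π.L ρ = 0} = ∅ := by
        rw [Set.eq_empty_iff_forall_notMem]
        rintro ρ ⟨g1, g2, g3, g4⟩
        have := hlow ρ g1 g2 (by rw [g3]; exact (hS y hy).1) g4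
        rw [g3] at this
        linarith [not_lt.1 hmy]
      rw [h3]
      simp
    rw [h2, Nat.cast_zero]
  rw [← Finset.sum_filter_add_sum_filter_not S (fun y => m / 2 < y)]
  have h4 : ∑ y ∈ S.filter (fun y => ¬ m / 2 < y), (ordMult π y : ℝ) = 0 :=
    Finset.sum_eq_zero fun y hy => h1 y (Finset.mem_filter.1 hy).1 (Finset.mem_filter.1 hy).2
  rw [h4, add_zero]
  refine sum_le π (by positivity) _ fun y hy => ?_
  rw [Finset.mem_filter] at hy
  exact ⟨hy.2, (hS y hy.1).2⟩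

theorem zc (hNU : T_NU) : T_ZC := by
  classical
  intro π C hC
  obtain ⟨C₀, T₁, hC₀, hN⟩ := hNU π
  set T₂ : ℝ := max T₁ 1 with hT₂
  obtain ⟨B, hB, hBd⟩ := bounded π (T₂ + 1)
  have hl2 : 0 < Real.log 2 := Real.log_pos (by norm_num)
  set K' : ℝ := C₀ + B / Real.log 2 with hK'
  have hK'0 : 0 < K' := by positivity
  refine ⟨(2 * C + 2) * K', by positivity, ?_⟩
  intro T v S hT hS
  have hT0 : 0 < T := by linarith
  have hlogT : Real.log 2 ≤ Real.log T := Real.log_le_log (by norm_num) hT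
  -- one block
  have hblock : ∀ (U : ℝ) (S' : Finset ℝ), 0 ≤ U → (∀ y ∈ S', U < y ∧ y < U + 1 ∧ y ≤ T) →
      ∑ y ∈ S', (ordMult π y : ℝ) ≤ K' * Real.log T := by
    intro U S' hU hS'
    by_cases hne : S'.Nonempty
    · obtain ⟨y₀, hy₀⟩ := hne
      by_cases hUT : T₂ ≤ U
      · have hU1 : 1 ≤ U := (le_max_right _ _).trans hUT
        have h1 := sum_le π (by linarith : 0 < U) S' fun y hy => ⟨(hS' y hy).1, (hS' y hy).2.1⟩
        have h2 := hN U ((le_max_left _ _).trans hUT)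
        have h3 : Real.log U ≤ Real.log T :=
          Real.log_le_log (by linarith) (by linarith [(hS' y₀ hy₀).1, (hS' y₀ hy₀).2.2])
        calc _ ≤ C₀ * Real.log U := h1.trans h2
          _ ≤ C₀ * Real.log T := mul_le_mul_of_nonneg_left h3 hC₀.le
          _ ≤ K' * Real.log T := by
            refine mul_le_mul_of_nonneg_right ?_ (by linarith)
            rw [hK']
            have : 0 ≤ B / Real.log 2 := by positivity
            linarith
      · have h1 := hBd S' fun y hy => ⟨by linarith [(hS' y hy).1],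
          by linarith [(hS' y hy).2.1, not_le.1 hUT]⟩
        calc _ ≤ B := h1
          _ = B / Real.log 2 * Real.log 2 := by field_simp
          _ ≤ B / Real.log 2 * Real.log T := mul_le_mul_of_nonneg_left hlogT (by positivity)
          _ ≤ K' * Real.log T := by
            refine mul_le_mul_of_nonneg_right ?_ (by linarith)
            rw [hK']
            linarith
    · rw [Finset.not_nonempty_iff_eq_empty.1 hne, Finset.sum_empty]
      have : 0 < Real.log T := by linarith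
      positivity
  -- the blocks
  set S' := S.filter (fun y => v ≤ y ∧ y ≤ v + C) with hS'
  set j : ℝ → ℤ := fun y => ⌈2 * y⌉ - 1 with hj
  set J : Finset ℤ := Finset.Icc (⌈2 * v⌉ - 1) (⌈2 * (v + C)⌉ - 1) with hJ
  have hmap : ∀ y ∈ S', j y ∈ J := by
    intro y hy
    rw [hS', Finset.mem_filter] at hy
    rw [hJ, Finset.mem_Icc]
    constructor
    · exact Int.sub_le_sub_right (Int.ceil_le_ceil (by linarith [hy.2.1])) 1
    · exact Int.sub_le_sub_right (Int.ceil_le_ceil (by linarith [hy.2.2])) 1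
  rw [← Finset.sum_fiberwise_of_maps_to hmap]
  have hcard : (J.card : ℝ) ≤ 2 * C + 2 := by
    rw [hJ, Int.card_Icc]
    have h1 : (⌈2 * (v + C)⌉ : ℝ) < 2 * (v + C) + 1 := Int.ceil_lt_add_one _
    have h2 : 2 * v ≤ (⌈2 * v⌉ : ℝ) := Int.le_ceil _
    have h3 : 0 ≤ ⌈2 * (v + C)⌉ - 1 + 1 - (⌈2 * v⌉ - 1) := by
      have : ⌈2 * v⌉ ≤ ⌈2 * (v + C)⌉ := Int.ceil_le_ceil (by linarith)
      omega
    have h4 : (((⌈2 * (v + C)⌉ - 1 + 1 - (⌈2 * v⌉ - 1)).toNat : ℕ) : ℝ) =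
        (⌈2 * (v + C)⌉ : ℝ) - 1 + 1 - ((⌈2 * v⌉ : ℝ) - 1) := by
      have h5 : (((⌈2 * (v + C)⌉ - 1 + 1 - (⌈2 * v⌉ - 1)).toNat : ℤ)) =
        ⌈2 * (v + C)⌉ - 1 + 1 - (⌈2 * v⌉ - 1) := Int.toNat_of_nonneg h3
      have h6 : ((((⌈2 * (v + C)⌉ - 1 + 1 - (⌈2 * v⌉ - 1)).toNat : ℤ)) : ℝ) =
        ((⌈2 * (v + C)⌉ - 1 + 1 - (⌈2 * v⌉ - 1) : ℤ) : ℝ) := by rw [h5]
      push_cast at h6 ⊢
      exact h6
    rw [h4]
    linarith
  calc ∑ i ∈ J, ∑ y ∈ S'.filter (fun y => j y = i), (ordMult π y : ℝ)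
      ≤ ∑ i ∈ J, K' * Real.log T := by
        refine Finset.sum_le_sum fun i hi => ?_
        by_cases hne : (S'.filter (fun y => j y = i)).Nonempty
        · obtain ⟨y₀, hy₀⟩ := hne
          have hi0 : 0 ≤ i := by
            rw [Finset.mem_filter, hS', Finset.mem_filter] at hy₀
            have h1 := (hS y₀ hy₀.1.1).1
            have h2 : 0 < ⌈2 * y₀⌉ := Int.ceil_pos.2 (by linarith)
            have h3 : ⌈2 * y₀⌉ - 1 = i := hy₀.2
            omega
          refine hblock ((i : ℝ) / 2) _ (by positivity) fun y hy => ?_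
          rw [Finset.mem_filter, hS', Finset.mem_filter] at hy
          have h3 : ⌈2 * y⌉ - 1 = i := hy.2
          have h4 : (⌈2 * y⌉ : ℝ) = (i : ℝ) + 1 := by
            have : ⌈2 * y⌉ = i + 1 := by omega
            exact_mod_cast this
          have h5 : (⌈2 * y⌉ : ℝ) < 2 * y + 1 := Int.ceil_lt_add_one _
          have h6 : 2 * y ≤ (⌈2 * y⌉ : ℝ) := Int.le_ceil _
          exact ⟨by linarith, by linarith, (hS y hy.1.1).2⟩
        · rw [Finset.not_nonempty_iff_eq_empty.1 hne, Finset.sum_empty]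
          have : 0 < Real.log T := by linarith
          positivity
    _ = (J.card : ℝ) * (K' * Real.log T) := by rw [Finset.sum_const, nsmul_eq_mul]
    _ ≤ (2 * C + 2) * (K' * Real.log T) :=
        mul_le_mul_of_nonneg_right hcard (mul_nonneg hK'0.le (by linarith))
    _ = (2 * C + 2) * K' * Real.log T := by ring

theorem pf_ZC : T_ZC :=
  zc (Pool.Agent.H29.PP.nu (Pool.Agent.H18.PZ.ca Pool.Agent.H18.PZ.rc) Pool.Agent.H29.PZ.or')

end Pool.Agent.H74.OT
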